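import Pool.Agent.Q286.XG.Stm
import Pool.Agent.Q240.CG.LF

set_option autoImplicit false

/-! # Project EXG (helper286), job RGD: the product of an L-function with its dual -/

open Complex Filter Topology
open scoped ComplexConjugate

namespace Pool.Agent.Q68.XG

open Pool.Agent.TH839.NA (RawT RawTL)
open Pool.Agent.Q286 Pool.Agent.Q286.XG

/-- raw data with the parameters in another form -/
theorem rawT_cast {θ : ℝ} {m m' r : ℕ} {N : ℝ} {a : Fin m → ℂ} {a' : Fin m' → ℂ} {b c : ℕ → ℂ} {X : ℂ → ℂ}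
    (hm : m' = m) (ha : ∀ j : Fin m', a' j = a (Fin.cast hm j)) (h : RawT θ m r N a b c X) :
    RawT θ m' r N a' b c X := by
  subst hm
  have : a' = a := funext fun j => ha j
  rw [this]
  exact h

theorem rawTL_ofFn {θ : ℝ} {m r : ℕ} {N : ℝ} {a : Fin m → ℂ} {b c : ℕ → ℂ} {X : ℂ → ℂ}
    (h : RawT θ m r N a b c X) : RawTL θ (List.ofFn a) r N b c X :=
  rawT_cast List.length_ofFn (fun j => by simp; rfl) h

/-- the dual L-function -/
theorem dual (L : TR.LFunction) : RawT (1 / 2) L.m L.r L.Q (fun j => conj (L.α j)) (fun n => conj (L.b n))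
    (fun n => conj ((TR.toL L).c n)) (fun s => conj (L.Λ (conj s))) := by
  have h : RawT (1 / 2) L.m L.r L.Q L.α L.b (TR.toL L).c L.Λ := (TR.toL L).raw
  have hw0 : L.w ≠ 0 := by
    intro h0
    have := L.w_norm
    rw [h0, norm_zero] at this
    exact zero_ne_one this
  have hQ0 : (0 : ℝ) < L.Q := lt_of_lt_of_le one_pos L.one_le_Q
  refine ⟨h.hm, h.hr, h.hN, h.hθ, h.hθ1, fun j => ?_, ?_, ?_, ?_, ?_, fun n => ?_, fun n hn => ?_, ?_⟩
  · rw [Complex.conj_re]
    exact h.re_ge j
  · intro s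
    have h1 := (L.entire (conj s)).conj_conj
    rw [Complex.conj_conj] at h1
    exact h1
  · obtain ⟨A, ρ, hA⟩ := L.order
    refine ⟨A, ρ, fun s => ?_⟩
    have h1 := hA (conj s)
    rwa [RCLike.norm_conj, ← RCLike.norm_conj] at h1
  · refine ⟨L.w⁻¹, by rw [norm_inv, L.w_norm, inv_one], fun s => ?_⟩
    rw [Complex.conj_conj, map_sub, map_one, Complex.conj_conj, L.fe s, inv_mul_cancel_left₀ hw0]
  · show conj (L.b 1) = 1
    rw [L.b_one, map_one]
  · rw [RCLike.norm_conj]
    exact h.cb n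
  · have h1 := congrArg conj (h.conv n hn)
    rw [map_mul, Complex.conj_ofReal, map_sum] at h1
    rw [h1]
    refine Finset.sum_congr rfl fun d _ => ?_
    rw [map_mul, map_mul, Complex.conj_ofReal]
  · obtain ⟨σ, hσ⟩ := L.dirichlet
    refine ⟨σ, fun s hs => ?_⟩
    rw [hσ (conj s) (by rwa [Complex.conj_re])]
    simp only [map_mul, map_pow, map_sub, map_one, map_prod, Complex.conj_conj]
    have e1 : conj ((L.Q : ℂ) ^ (conj s / 2)) = (L.Q : ℂ) ^ (s / 2) := by
      have h := cpow_conj (L.Q : ℂ) (s / 2) (by rw [arg_ofReal_of_nonneg hQ0.le]; exact Real.pi_pos.ne)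
      rw [conj_ofReal, map_div₀, map_ofNat] at h
      rw [h, Complex.conj_conj]
    have e2 : ∀ j, conj (Gammaℝ (conj s + L.α j)) = Gammaℝ (s + conj (L.α j)) := by
      intro j
      have h := H429.GP.Gammaℝ_conj (s + conj (L.α j))
      rw [map_add, Complex.conj_conj] at h
      rw [h, Complex.conj_conj]
    rw [e1, Pool.Agent.H471R3.GJ.PXX.conj_LSeries, Finset.prod_congr rfl fun j _ => e2 j]

/-- the product with the dual -/
@[reducible] noncomputable def prodL (L : TR.LFunction) : Y23.G.LFun where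
  m := (List.ofFn L.α ++ List.ofFn fun j => conj (L.α j)).length
  r := L.r + L.r
  N := L.Q * L.Q
  a := fun j => (List.ofFn L.α ++ List.ofFn fun j => conj (L.α j)).get j
  b := LSeries.convolution L.b fun n => conj (L.b n)
  c := fun n => (TR.toL L).c n + conj ((TR.toL L).c n)
  X := fun s => L.Λ s * conj (L.Λ (conj s))
  raw := Pool.Agent.Q177.CG.rawMul _ _ _ _ _ _ _ _ _ _ _ _ _ (rawTL_ofFn (TR.toL L).raw) (rawTL_ofFn (dual L))
  str := by
    intro j
    have h1 := List.get_mem (List.ofFn L.α ++ List.ofFn fun j => conj (L.α j)) j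
    rcases List.mem_append.1 h1 with h2 | h2
    · obtain ⟨i, hi⟩ := List.mem_ofFn.1 h2
      rw [← hi]
      exact L.α_re i
    · obtain ⟨i, hi⟩ := List.mem_ofFn.1 h2
      rw [← hi, Complex.conj_re]
      exact L.α_re i

theorem prodL_m (L : TR.LFunction) : (prodL L).m = 2 * L.m := by
  show (List.ofFn L.α ++ List.ofFn fun j => conj (L.α j)).length = 2 * L.m
  rw [List.length_append, List.length_ofFn, List.length_ofFn]
  ring

theorem zd_ext (D D' : Y23.G.ZD) (h1 : D.Zs = D'.Zs) (h2 : D.mul = D'.mul) : D = D' := by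
  cases D
  cases D'
  simp only at h1 h2
  subst h1 h2
  rfl

/-- the multiplicity of the conjugate function -/
theorem mult_cj (L : TR.LFunction) (s : ℂ) :
    H370.mult (fun z => conj (L.Λ (conj z))) s = H370.mult L.Λ (conj s) := by
  have hw0 : L.w ≠ 0 := by
    intro h0
    have := L.w_norm
    rw [h0, norm_zero] at this
    exact zero_ne_one this
  have e : (fun z => conj (L.Λ (conj z))) = fun z => L.w⁻¹ * L.Λ (1 - z) := by
    funext z
    rw [L.fe z, inv_mul_cancel_left₀ hw0]
  have hd : Differentiable ℂ fun z => L.Λ (1 - z) := L.entire.comp (by fun_prop)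
  rw [e, Y23.G.mult_const_mul (L := TR.toL L) (inv_ne_zero hw0) (hd.analyticAt s), Q240.CG.mult_one_sub]
  have h1 := Y23.G.X_mrefl (L := TR.toL L) (conj s)
  rw [Complex.conj_conj] at h1
  exact h1

/-- the zero data of the product -/
theorem zd_prod (L : TR.LFunction) : Y23.G.zd (L := prodL L) = TR.D2 L := by
  classical
  have hne : ∀ s, analyticOrderAt L.Λ s ≠ ⊤ := fun s =>
    H370.Loc.order_ne_top (f := L.Λ) (K := Set.univ) isPreconnected_univ (fun z _ => L.entire.analyticAt z)
      (Set.mem_univ (Y23.G.ctr 0)) (Y23.G.ctr_ne (L := TR.toL L) 0) (Set.mem_univ _)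
  have hd' : Differentiable ℂ fun s : ℂ => conj (L.Λ (conj s)) := (dual L).entire
  have hne' : ∀ s, analyticOrderAt (fun s : ℂ => conj (L.Λ (conj s))) s ≠ ⊤ := fun s =>
    H370.Loc.order_ne_top (f := fun s : ℂ => conj (L.Λ (conj s))) (K := Set.univ) isPreconnected_univ
      (fun z _ => hd'.analyticAt z) (Set.mem_univ (conj (Y23.G.ctr 0))) (by
        rw [Complex.conj_conj]
        intro h0
        exact Y23.G.ctr_ne (L := TR.toL L) 0 ((map_eq_zero _).1 h0)) (Set.mem_univ _)
  have hwt : ∀ s, Q240.CG.wtD (TR.D1 L) s = H370.mult L.Λ s := by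
    intro s
    unfold Q240.CG.wtD
    by_cases h : s ∈ (TR.D1 L).Zs
    · rw [if_pos h]
      rfl
    · rw [if_neg h]
      have h1 : L.Λ s ≠ 0 := h
      unfold H370.mult analyticOrderNatAt
      rw [(L.entire.analyticAt s).analyticOrderAt_eq_zero.2 h1]
      rfl
  refine zd_ext _ _ ?_ ?_
  · ext s
    show L.Λ s * conj (L.Λ (conj s)) = 0 ↔ L.Λ s = 0 ∨ L.Λ (conj s) = 0
    rw [mul_eq_zero, map_eq_zero]
  · funext s
    show H370.mult (fun s => L.Λ s * conj (L.Λ (conj s))) s =
      Q240.CG.wtD (TR.D1 L) s + Q240.CG.wtD (TR.D1 L) (conj s)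
    rw [hwt, hwt, ← mult_cj]
    exact analyticOrderNatAt_mul (L.entire.analyticAt s) (hd'.analyticAt s) (hne s) (hne' s)

theorem rgd : S_RGd := by
  intro h L
  have h1 := h (L := prodL L)
  have hm0 : (0 : ℝ) < L.m := by exact_mod_cast L.one_le_m
  have hQ0 : (0 : ℝ) < L.Q := lt_of_lt_of_le one_pos L.one_le_Q
  have e1 : (fun a => Real.exp (2 * a / (prodL L).m)) = fun a => Real.exp (a / L.m) := by
    funext a
    rw [prodL_m]
    congr 1
    push_cast
    field_simp
  have e2 : Y23.G.cc (L := prodL L) = 2 * Real.pi * L.m * L.Q ^ (-(1 / (L.m : ℝ))) := by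
    unfold Y23.G.cc
    rw [prodL_m]
    have e3 : (prodL L).N = L.Q * L.Q := rfl
    rw [e3, Real.log_mul hQ0.ne' hQ0.ne', Real.rpow_def_of_pos hQ0]
    push_cast
    have e4 : -((Real.log L.Q + Real.log L.Q) / (2 * (L.m : ℝ))) = Real.log L.Q * -(1 / (L.m : ℝ)) := by
      field_simp
      ring
    rw [e4]
    ring
  rw [e1, e2, zd_prod] at h1
  exact h1

end Pool.Agent.Q68.XG
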