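import Pool.Agent.Q286.XG.StmN
import Pool.Agent.Q176.XG.RateF

set_option autoImplicit false

/-!
# Project EXG, job RateFN: the extremal functions of the degrees `ν ≥ K a E(a)`
-/

namespace Pool.Agent.Q68.XG

open Filter Topology MeasureTheory
open Pool.Agent Pool.Agent.Q286.XG
open Pool.Agent.Q240.CG (m0)
open Pool.Agent.Q176.XG (m0_eq one_zero)

theorem bigE_mono {E : ℝ → ℝ} {K K' a : ℝ} {ν : ℕ∞} (h : K' ≤ K) (ha : 0 ≤ a * E a)
    (hb : BigE E K a ν) : BigE E K' a ν := by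
  unfold BigE at hb ⊢
  refine le_trans ?_ hb
  have h1 : K' * a * E a ≤ K * a * E a := by
    rw [mul_assoc, mul_assoc]
    exact mul_le_mul_of_nonneg_right h ha
  exact_mod_cast Nat.ceil_mono h1

theorem hd_of_hn [Y23.G.ZD] {a : ℝ} {ν : ℕ∞} {f : ℝ → ℂ} (h : Y23.G.F.Hn a ν f) :
    Y23.G.Hd a f := ⟨h.1, h.2.1⟩

/-- **RateFN**: the extremal functions of the degrees `ν ≥ K a E(a)` -/
theorem rateFN : S_RateFN := by
  intro hXP D _ _ hRH E q hE hRN c hc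
  have hfirst : ∀ c : ℝ, c < 2 * q → ∃ K : ℝ, ∀ᶠ a : ℝ in atTop, ∀ ν : ℕ∞, BigE E K a ν →
      ∀ f : ℝ → ℂ, XtG a ν f → Y23.G.QQ f ≤ (m0 : ℝ) + Real.exp (-(c * E a)) := by
    intro c hc
    obtain ⟨C, K, hC⟩ := hRN 0 c hc
    refine ⟨K, ?_⟩
    filter_upwards [hC] with a ha ν hν f hf
    obtain ⟨G, hG, hG1, -, hGS⟩ := ha ν hν
    have e : Complex.I * ((0 : ℝ) : ℂ) = 0 := by simp
    have e' : (1 / 2 + Complex.I * ((0 : ℝ) : ℂ) : ℂ) = 1 / 2 := by simp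
    rw [e] at hG1
    rw [e', ← m0_eq] at hGS
    refine (hf.2.2 G hG hG1).trans ?_
    rw [Y23.G.QQ_eq_SS hRH]
    exact hGS
  refine ⟨?_, ?_⟩
  · obtain ⟨K, hK⟩ := hfirst c hc
    obtain ⟨A, hA⟩ := eventually_atTop.1 hK
    exact ⟨K, A, fun a ν ha => hA a ha ν⟩
  intro γ hγ hz
  obtain ⟨c', hc'⟩ : ∃ c', c' = (c + 2 * q) / 2 := ⟨_, rfl⟩
  have hc1 : c < c' := by linarith
  have hc2 : c' < 2 * q := by linarith
  obtain ⟨ρ0, hρ0⟩ : ∃ ρ0 : Y23.G.Zt, (ρ0 : ℂ) = 1 / 2 + Complex.I * γ := ⟨⟨_, hz⟩, rfl⟩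
  have hρ1 : (ρ0 : ℂ) - 1 / 2 = Complex.I * γ := by rw [hρ0]; ring
  have hρ2 : (ρ0 : ℂ) ≠ 1 / 2 := by
    intro h
    rw [h, sub_self] at hρ1
    have h1 : (γ : ℂ) = 0 := by
      rcases mul_eq_zero.1 hρ1.symm with h2 | h2
      · exact absurd h2 Complex.I_ne_zero
      · exact h2
    exact hγ (by exact_mod_cast h1)
  have hmu : 1 ≤ Y23.G.mu (ρ0 : ℂ) := D.mpos _ ρ0.2
  have hmu' : (1 : ℝ) ≤ (Y23.G.mu (ρ0 : ℂ) : ℝ) := by exact_mod_cast hmu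
  have hmc : mc (1 / 2 + Complex.I * (γ : ℂ)) = Y23.G.mu (ρ0 : ℂ) := by
    rw [hρ0]
    unfold mc
    rw [if_pos hz]
    rfl
  obtain ⟨K1, hK1⟩ := hfirst c' hc2
  obtain ⟨C, K2, hC⟩ := hRN γ c' hc2
  obtain ⟨C', hC'⟩ : ∃ C' : ℝ, C' = |C| + 1 := ⟨_, rfl⟩
  have hCp : 0 < C' := by rw [hC']; positivity
  have hX : Tendsto (fun a : ℝ => (c' - c) * E a) atTop atTop := hE.const_mul_atTop (by linarith)
  have hev : ∀ᶠ a : ℝ in atTop, ∀ ν : ℕ∞, BigE E (max K1 K2) a ν → ∀ f : ℝ → ℂ, XtG a ν f →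
      ‖Y23.TT f (Complex.I * γ)‖ ≤ Real.exp (-(c * E a)) := by
    filter_upwards [hK1, hC, hX.eventually_ge_atTop (Real.log C'), eventually_gt_atTop 0,
      hE.eventually_ge_atTop 0] with a h1 h2 h3 ha hEa
    intro ν hν f hf
    have hm : 0 ≤ a * E a := mul_nonneg ha.le hEa
    obtain ⟨G, hG, hG1, hG0, hGS⟩ := h2 ν (bigE_mono (le_max_right _ _) hm hν)
    rw [hmc] at hGS
    have hfd : Y23.G.Hd a f := hd_of_hn hf.1
    have hQ := h1 ν (bigE_mono (le_max_left _ _) hm hν) f hf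
    obtain ⟨hQ0, -, -, -, -, hort⟩ := hXP hRH a ν f ha hf
    have hQB := hort G hG
    have h4 := one_zero hRH ha hfd (hd_of_hn hG) ρ0 hρ2 (Real.exp (-(c' * E a))) hf.2.1
      (by rw [← Y23.G.QQ_eq_SS hRH]; exact hQ) (by rw [hρ1]; exact hG1) hGS
    rw [hρ1] at h4
    have h5 : ‖Y23.G.QB f G - (m0 : ℂ) * (starRingEnd ℂ) (Y23.TT G 0)‖ ≤
        Real.exp (-(c' * E a)) * |C| := by
      have e : Y23.G.QB f G - (m0 : ℂ) * (starRingEnd ℂ) (Y23.TT G 0) =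
          ((Y23.G.QQ f - (m0 : ℝ) : ℝ) : ℂ) * (starRingEnd ℂ) (Y23.TT G 0) := by
        rw [hQB]
        push_cast
        ring
      rw [e, norm_mul, Complex.norm_real, RCLike.norm_conj, Real.norm_of_nonneg (by linarith)]
      refine mul_le_mul (by linarith) (hG0.trans (le_abs_self C)) (norm_nonneg _)
        (Real.exp_pos _).le
    have h7 : Real.exp (-(c' * E a)) * C' ≤ Real.exp (-(c * E a)) := by
      rw [← Real.exp_log hCp, ← Real.exp_add]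
      apply Real.exp_le_exp.2
      linarith
    have h9 : ‖Y23.TT f (Complex.I * γ)‖ ≤
        (Y23.G.mu (ρ0 : ℂ) : ℝ) * ‖Y23.TT f (Complex.I * γ)‖ :=
      le_mul_of_one_le_left (norm_nonneg _) hmu'
    rw [hC'] at h7
    linarith
  obtain ⟨A, hA⟩ := eventually_atTop.1 hev
  exact ⟨max K1 K2, A, fun a ν ha => hA a ha ν⟩

end Pool.Agent.Q68.XG
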